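import Pool.Agent.Helper30.LK.St

/-!
# Project LK, module PPP: products of two surviving primes
-/

set_option autoImplicit false

noncomputable section

namespace Pool.Agent.Helper8.LK

open Finset ArithmeticFunction Filter
open Pool.Agent.Helper30.LK

private theorem low {x p : ℕ} (hx : 7776 ≤ x) (h : Al x p) : (x : ℝ) ^ (2 / 5 : ℝ) ≤ p := by
  obtain ⟨hp, hl⟩ := h
  by_contra hcon
  push Not at hcon
  have hx0 : (0 : ℝ) ≤ x := Nat.cast_nonneg _
  set t : ℝ := (x : ℝ) ^ (1 / 5 : ℝ) with ht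
  have ht5 : t ^ 5 = x := by
    rw [ht, ← Real.rpow_natCast, ← Real.rpow_mul hx0]
    norm_num
  have ht2 : (x : ℝ) ^ (2 / 5 : ℝ) = t ^ 2 := by
    rw [ht, ← Real.rpow_natCast, ← Real.rpow_mul hx0]
    norm_num
  have ht0 : 0 ≤ t := Real.rpow_nonneg hx0 _
  have ht6 : 6 ≤ t := by
    by_contra h6
    push Not at h6
    have h7 : t ^ 5 < 6 ^ 5 := pow_lt_pow_left₀ h6 ht0 (by norm_num)
    rw [ht5] at h7
    have h8 : (7776 : ℝ) ≤ x := by exact_mod_cast hx
    norm_num at h7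
    linarith
  rw [ht2] at hcon
  have hp2 : 2 ≤ p := hp.two_le
  have hne : p ^ 2 + p + 1 ≠ 1 := by
    have : 0 < p ^ 2 := by positivity
    omega
  have hq := Nat.minFac_prime hne
  have hqd := Nat.minFac_dvd (p ^ 2 + p + 1)
  have h1 : ¬ 2 * (p ^ 2 + p + 1).minFac ≤ x := fun h => hl _ hq h hqd
  have h2 : (p ^ 2 + p + 1).minFac ≤ p ^ 2 + p + 1 := Nat.minFac_le (by positivity)
  have h3 : x < 6 * p ^ 2 := by nlinarith
  have h4 : (x : ℝ) < 6 * (p : ℝ) ^ 2 := by exact_mod_cast h3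
  have hp0 : (0 : ℝ) ≤ p := Nat.cast_nonneg _
  have h5 : (p : ℝ) ^ 2 ≤ (t ^ 2) ^ 2 := pow_le_pow_left₀ hp0 hcon.le 2
  have h6 : 6 * (t ^ 2) ^ 2 ≤ t ^ 5 := by
    have : 0 ≤ t ^ 4 * (t - 6) := mul_nonneg (by positivity) (by linarith)
    nlinarith
  rw [ht5] at h6
  linarith

open Classical in
private theorem recip {C : ℝ} (hC : 0 < C) {x M : ℕ} (hx : 7776 ≤ x) (hxM : x ≤ M)
    (hM : (M : ℝ) ≤ (x : ℝ) ^ (5 / 4 : ℝ))
    (h : ∀ y : ℕ, (x : ℝ) ^ (1 / 4 : ℝ) ≤ y → (y : ℝ) ≤ (x : ℝ) ^ (3 / 2 : ℝ) →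
      (((Icc 1 y).filter (fun p => Al x p)).card : ℝ) ≤ C * (y / Real.log x ^ 2)) :
    ∑ p ∈ (Icc 1 M).filter (fun p => Al x p ∧ p * p ≤ M), (1 : ℝ) / p ≤ 6 * C / Real.log x := by
  have hx1 : (1 : ℝ) ≤ x := by exact_mod_cast (by omega : 1 ≤ x)
  have hx0 : (0 : ℝ) < x := by linarith
  have hL1 : 1 ≤ Real.log x := by
    rw [Real.le_log_iff_exp_le hx0]
    have h1 := Real.exp_one_lt_d9
    have h2 : (7776 : ℝ) ≤ x := by exact_mod_cast hx
    linarith
  have hL0 : 0 < Real.log x := by linarith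
  set P := (Icc 1 M).filter (fun p => Al x p ∧ p * p ≤ M) with hP
  have hmap : ∀ p ∈ P, Nat.log 2 p ∈ range (Nat.log 2 M + 1) := by
    intro p hp
    rw [hP, mem_filter, mem_Icc] at hp
    rw [mem_range]
    exact Nat.lt_succ_of_le (Nat.log_mono_right hp.1.2)
  rw [← Finset.sum_fiberwise_of_maps_to hmap]
  have hin : ∀ k ∈ range (Nat.log 2 M + 1),
      ∑ p ∈ P with Nat.log 2 p = k, (1 : ℝ) / p ≤ 2 * C / Real.log x ^ 2 := by
    intro k _
    rcases (P.filter (fun p => Nat.log 2 p = k)).eq_empty_or_nonempty with he | ⟨p0, hp0⟩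
    · rw [he, Finset.sum_empty]
      positivity
    · rw [mem_filter, hP, mem_filter, mem_Icc] at hp0
      obtain ⟨⟨⟨h1, h2⟩, h3, h4⟩, h5⟩ := hp0
      have hp2 : 2 ≤ p0 := h3.1.two_le
      have hlo : p0 < 2 ^ (k + 1) := by
        rw [← h5]; exact Nat.lt_pow_succ_log_self (by norm_num) p0
      have hhi : 2 ^ k ≤ p0 := by
        rw [← h5]; exact Nat.pow_log_le_self 2 (by omega)
      have hhi2 : 2 ^ (k + 1) ≤ M := by
        rw [pow_succ]
        calc 2 ^ k * 2 ≤ p0 * p0 := Nat.mul_le_mul hhi hp2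
          _ ≤ M := h4
      have hc := h (2 ^ (k + 1)) (by
        have h6 := low hx h3
        have h7 : (x : ℝ) ^ (1 / 4 : ℝ) ≤ (x : ℝ) ^ (2 / 5 : ℝ) :=
          Real.rpow_le_rpow_of_exponent_le hx1 (by norm_num)
        have h8 : (p0 : ℝ) ≤ ((2 ^ (k + 1) : ℕ) : ℝ) := by exact_mod_cast hlo.le
        linarith) (by
        have h6 : ((2 ^ (k + 1) : ℕ) : ℝ) ≤ M := by exact_mod_cast hhi2
        have h7 : (x : ℝ) ^ (5 / 4 : ℝ) ≤ (x : ℝ) ^ (3 / 2 : ℝ) :=
          Real.rpow_le_rpow_of_exponent_le hx1 (by norm_num)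
        linarith)
      have hsub : P.filter (fun p => Nat.log 2 p = k) ⊆
          (Icc 1 (2 ^ (k + 1))).filter (fun p => Al x p) := by
        intro p hp
        rw [mem_filter, hP, mem_filter, mem_Icc] at hp
        obtain ⟨⟨⟨g1, g2⟩, g3, g4⟩, g5⟩ := hp
        rw [mem_filter, mem_Icc]
        refine ⟨⟨g1, ?_⟩, g3⟩
        rw [← g5]
        exact (Nat.lt_pow_succ_log_self (by norm_num) p).le
      have hcard : ((P.filter (fun p => Nat.log 2 p = k)).card : ℝ) ≤
          C * (((2 ^ (k + 1) : ℕ) : ℝ) / Real.log x ^ 2) :=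
        le_trans (by exact_mod_cast card_le_card hsub) hc
      have hterm : ∀ p ∈ P.filter (fun p => Nat.log 2 p = k), (1 : ℝ) / p ≤ 1 / 2 ^ k := by
        intro p hp
        rw [mem_filter, hP, mem_filter, mem_Icc] at hp
        obtain ⟨⟨⟨g1, g2⟩, g3, g4⟩, g5⟩ := hp
        apply one_div_le_one_div_of_le (by positivity)
        have g6 : 2 ^ k ≤ p := by
          rw [← g5]; exact Nat.pow_log_le_self 2 (by omega)
        exact_mod_cast g6
      refine (Finset.sum_le_card_nsmul _ _ _ hterm).trans ?_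
      rw [nsmul_eq_mul]
      refine (mul_le_mul_of_nonneg_right hcard (by positivity)).trans (le_of_eq ?_)
      push_cast
      rw [pow_succ]
      have h2k : (2 : ℝ) ^ k ≠ 0 := by positivity
      field_simp
  refine (Finset.sum_le_sum hin).trans ?_
  rw [Finset.sum_const, card_range, nsmul_eq_mul]
  have hk : ((Nat.log 2 M + 1 : ℕ) : ℝ) ≤ 3 * Real.log x := by
    push_cast
    have hM0 : M ≠ 0 := by omega
    have h1 : 2 ^ (Nat.log 2 M) ≤ M := Nat.pow_log_le_self 2 hM0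
    have h2 : ((2 : ℝ)) ^ (Nat.log 2 M) ≤ M := by exact_mod_cast h1
    have h3 : Real.log ((2 : ℝ) ^ (Nat.log 2 M)) ≤ Real.log ((x : ℝ) ^ (5 / 4 : ℝ)) :=
      Real.log_le_log (by positivity) (h2.trans hM)
    rw [Real.log_pow, Real.log_rpow hx0] at h3
    have h4 := Real.log_two_gt_d9
    have h5 : (0 : ℝ) ≤ (Nat.log 2 M : ℝ) := Nat.cast_nonneg _
    nlinarith
  calc ((Nat.log 2 M + 1 : ℕ) : ℝ) * (2 * C / Real.log x ^ 2)
      ≤ 3 * Real.log x * (2 * C / Real.log x ^ 2) := mul_le_mul_of_nonneg_right hk (by positivity)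
    _ = 6 * C / Real.log x := by field_simp; ring

open Classical in
/-- Module PPP. -/
theorem hPPP (h2 : StCN2) : StPPP := by
  obtain ⟨C, hC, x₀, h⟩ := h2
  refine ⟨6 * C ^ 2, by positivity, max x₀ 7776, ?_⟩
  intro x M hx hxM hM
  have hx' : x₀ ≤ x := (le_max_left _ _).trans hx
  have hx7 : 7776 ≤ x := (le_max_right _ _).trans hx
  have hx1 : (1 : ℝ) ≤ x := by exact_mod_cast (by omega : 1 ≤ x)
  have hx0 : (0 : ℝ) < x := by linarith
  have hL0 : 0 < Real.log x := Real.log_pos (by exact_mod_cast (by omega : 1 < x))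
  have hr := recip hC hx7 hxM hM (fun y => h x y hx')
  set P := (Icc 1 M).filter (fun p => Al x p ∧ p * p ≤ M) with hP
  have hsub : (Icc 1 M).filter (fun m => ∃ p p' : ℕ, Al x p ∧ Al x p' ∧ m = p * p') ⊆
      P.biUnion (fun p => ((Icc 1 (M / p)).filter (fun p' => Al x p')).image
        (fun p' => p * p')) := by
    intro m hm
    rw [mem_filter, mem_Icc] at hm
    obtain ⟨⟨hm1, hm2⟩, p, p', hp, hp', rfl⟩ := hm
    have key : ∀ a b : ℕ, Al x a → Al x b → a * b ≤ M → a ≤ b →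
        a * b ∈ P.biUnion (fun p => ((Icc 1 (M / p)).filter (fun p' => Al x p')).image
        (fun p' => p * p')) := by
      intro a b ha hb hab hle
      have ha2 := ha.1.two_le
      have hb2 := hb.1.two_le
      have h1 : a * a ≤ M := (Nat.mul_le_mul_left a hle).trans hab
      have h3 : a ≤ a * a := Nat.le_mul_of_pos_left _ (by omega)
      rw [mem_biUnion]
      refine ⟨a, ?_, ?_⟩
      · rw [hP, mem_filter, mem_Icc]
        exact ⟨⟨by omega, by omega⟩, ha, h1⟩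
      · rw [mem_image]
        refine ⟨b, ?_, rfl⟩
        rw [mem_filter, mem_Icc]
        refine ⟨⟨by omega, ?_⟩, hb⟩
        rw [Nat.le_div_iff_mul_le (by omega), mul_comm]
        exact hab
    rcases le_total p p' with hle | hle
    · exact key p p' hp hp' hm2 hle
    · rw [mul_comm]
      exact key p' p hp' hp (by rw [mul_comm]; exact hm2) hle
  have h1 : (((Icc 1 M).filter (fun m => ∃ p p' : ℕ, Al x p ∧ Al x p' ∧ m = p * p')).card : ℝ) ≤
      ∑ p ∈ P, (((Icc 1 (M / p)).filter (fun p' => Al x p')).card : ℝ) := by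
    have h3 := (card_le_card hsub).trans (card_biUnion_le)
    have h4 : ∑ p ∈ P, (((Icc 1 (M / p)).filter (fun p' => Al x p')).image
        (fun p' => p * p')).card ≤ ∑ p ∈ P, ((Icc 1 (M / p)).filter (fun p' => Al x p')).card :=
      Finset.sum_le_sum (fun p _ => card_image_le)
    exact_mod_cast h3.trans h4
  have h3 : ∀ p ∈ P, (((Icc 1 (M / p)).filter (fun p' => Al x p')).card : ℝ) ≤
      C * (M / Real.log x ^ 2) * (1 / p) := by
    intro p hp
    rw [hP, mem_filter, mem_Icc] at hp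
    obtain ⟨⟨g1, g2⟩, g3, g4⟩ := hp
    have g5 : p ≤ M / p := by
      rw [Nat.le_div_iff_mul_le (by omega)]
      exact g4
    have hp0 : (0 : ℝ) < p := by exact_mod_cast g1
    have g6 := h x (M / p) hx' (by
      have h6 := low hx7 g3
      have h7 : (x : ℝ) ^ (1 / 4 : ℝ) ≤ (x : ℝ) ^ (2 / 5 : ℝ) :=
        Real.rpow_le_rpow_of_exponent_le hx1 (by norm_num)
      have h8 : (p : ℝ) ≤ ((M / p : ℕ) : ℝ) := by exact_mod_cast g5
      linarith) (by
      have h6 : ((M / p : ℕ) : ℝ) ≤ M := by exact_mod_cast Nat.div_le_self M p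
      have h7 : (x : ℝ) ^ (5 / 4 : ℝ) ≤ (x : ℝ) ^ (3 / 2 : ℝ) :=
        Real.rpow_le_rpow_of_exponent_le hx1 (by norm_num)
      linarith)
    refine g6.trans ?_
    have g7 : ((M / p : ℕ) : ℝ) ≤ M / p := Nat.cast_div_le
    have g8 : C * (M / Real.log x ^ 2) * (1 / p) = C * ((M / p) / Real.log x ^ 2) := by
      field_simp
    rw [g8]
    exact mul_le_mul_of_nonneg_left (div_le_div_of_nonneg_right g7 (by positivity)) hC.le
  refine h1.trans ((Finset.sum_le_sum h3).trans ?_)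
  rw [← Finset.mul_sum]
  refine (mul_le_mul_of_nonneg_left hr (by positivity)).trans (le_of_eq ?_)
  field_simp

end Pool.Agent.Helper8.LK
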